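import Pool.Agent.FS.H39Drop.Cover

/-! Consequences of a cover by graphs of `ε`-Lipschitz functions for every `ε > 0`. -/

open Set Filter Topology MeasureTheory
open scoped NNReal ENNReal

namespace Pool.Agent.FS39

/-- Each time slice is countable. -/
theorem Cov.countable_slice {ε : ℝ≥0} {S : Set (ℝ × ℝ)} (h : Cov ε S) (T : ℝ) :
    {a | (a, T) ∈ S}.Countable := by
  obtain ⟨f, -, h2⟩ := h
  exact (countable_range fun k => f k T).mono fun a ha => h2 (a, T) ha

/-- A curve steeper than `ε` meets the set at countably many times. -/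
theorem Cov.countable_curve {ε : ℝ≥0} {S : Set (ℝ × ℝ)} (h : Cov ε S) {α : ℝ → ℝ} {m : ℝ}
    (hm : (ε : ℝ) < m) {A : Set ℝ} (hα : ∀ s ∈ A, ∀ t ∈ A, m * |s - t| ≤ |α s - α t|) :
    {t | t ∈ A ∧ (α t, t) ∈ S}.Countable := by
  obtain ⟨f, h1, h2⟩ := h
  refine (countable_iUnion fun k => (show {t | t ∈ A ∧ f k t = α t}.Subsingleton from ?_).countable).mono
    fun t ht => ?_
  · rintro s ⟨hs, hs'⟩ t ⟨ht, ht'⟩
    have h3 := (h1 k).dist_le_mul s t
    rw [Real.dist_eq, Real.dist_eq, hs', ht'] at h3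
    have h4 := hα s hs t ht
    by_contra hne
    have h5 : 0 < |s - t| := abs_pos.2 (sub_ne_zero.2 hne)
    nlinarith
  · obtain ⟨k, hk⟩ := h2 _ ht.2
    exact mem_iUnion.2 ⟨k, ht.1, hk⟩

/-- The set of levels that occur is null. -/
theorem null_of_cov {S : Set (ℝ × ℝ)} (h : ∀ ε : ℝ≥0, 0 < ε → Cov ε S) :
    volume (Prod.fst '' S) = 0 := by
  obtain ⟨f, hf, hS⟩ := h 1 one_pos
  have key : ∀ k M : ℕ, volume (f k '' {t | t ∈ Icc (-(M : ℝ)) M ∧ (f k t, t) ∈ S}) = 0 := by
    intro k M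
    have hb : ∀ ε : ℝ≥0, 0 < ε → volume (f k '' {t | t ∈ Icc (-(M : ℝ)) M ∧ (f k t, t) ∈ S}) ≤
        ε * volume (Icc (-(M : ℝ)) M) := by
      intro ε hε
      obtain ⟨g, hg, hgS⟩ := h ε hε
      set E : ℕ → Set ℝ := fun l => {t | g l t = f k t} with hE
      have hEm : ∀ l, MeasurableSet (E l) := fun l =>
        (isClosed_eq (hg l).continuous (hf k).continuous).measurableSet
      have hsub : f k '' {t | t ∈ Icc (-(M : ℝ)) M ∧ (f k t, t) ∈ S} ⊆
          ⋃ l, g l '' (disjointed E l ∩ Icc (-(M : ℝ)) M) := by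
        rintro _ ⟨t, ⟨ht, htS⟩, rfl⟩
        have h1 : t ∈ ⋃ l, disjointed E l := by
          rw [iUnion_disjointed]
          exact mem_iUnion.2 (hgS _ htS)
        obtain ⟨l, hl⟩ := mem_iUnion.1 h1
        exact mem_iUnion.2 ⟨l, t, ⟨hl, ht⟩, disjointed_subset E l hl⟩
      refine (measure_mono hsub).trans ((measure_iUnion_le _).trans ?_)
      have h2 : ∀ l, volume (g l '' (disjointed E l ∩ Icc (-(M : ℝ)) M)) ≤
          ε * volume (disjointed E l ∩ Icc (-(M : ℝ)) M) := by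
        intro l
        have := (hg l).hausdorffMeasure_image_le zero_le_one (disjointed E l ∩ Icc (-(M : ℝ)) M)
        rwa [hausdorffMeasure_real, ENNReal.rpow_one] at this
      refine (ENNReal.tsum_le_tsum h2).trans ?_
      rw [ENNReal.tsum_mul_left, ← measure_iUnion
        (fun i j hij => ((disjoint_disjointed E hij).mono inter_subset_left inter_subset_left))
        fun l => (MeasurableSet.disjointed hEm l).inter measurableSet_Icc]
      exact mul_le_mul_right (measure_mono (iUnion_subset fun l => inter_subset_right)) _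
    have ht : Tendsto (fun ε : ℝ≥0 => (ε : ℝ≥0∞) * volume (Icc (-(M : ℝ)) M)) (𝓝[>] 0) (𝓝 0) := by
      have := ENNReal.Tendsto.mul_const (b := volume (Icc (-(M : ℝ)) M))
        ((ENNReal.tendsto_coe.2 tendsto_id).mono_left (nhdsWithin_le_nhds (a := (0 : ℝ≥0)) (s := Ioi 0)))
        (Or.inr measure_Icc_lt_top.ne)
      simpa using this
    exact le_antisymm (ge_of_tendsto ht (by
      filter_upwards [self_mem_nhdsWithin] with ε hε using hb ε hε)) zero_le
  refine measure_mono_null ?_ (measure_iUnion_null fun k => measure_iUnion_null fun M => key k M)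
  rintro _ ⟨p, hp, rfl⟩
  obtain ⟨k, hk⟩ := hS p hp
  obtain ⟨M, hM⟩ := exists_nat_ge |p.2|
  refine mem_iUnion.2 ⟨k, mem_iUnion.2 ⟨M, p.2, ⟨abs_le.1 hM, ?_⟩, hk⟩⟩
  rw [hk]
  exact hp

end Pool.Agent.FS39
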