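import Mathlib

/-! Covering planar sets by countably many graphs of Lipschitz functions. -/

open Set Filter Topology
open scoped NNReal

namespace Pool.Agent.FS39

/-- The set `S` of pairs (level, time) lies on countably many graphs of `ε`-Lipschitz functions. -/
def Cov (ε : ℝ≥0) (S : Set (ℝ × ℝ)) : Prop :=
  ∃ f : ℕ → ℝ → ℝ, (∀ k, LipschitzWith ε (f k)) ∧ ∀ p ∈ S, ∃ k, f k p.2 = p.1

theorem Cov.mono {ε : ℝ≥0} {S S' : Set (ℝ × ℝ)} (h : Cov ε S') (hs : S ⊆ S') : Cov ε S := by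
  obtain ⟨f, h1, h2⟩ := h
  exact ⟨f, h1, fun p hp => h2 p (hs hp)⟩

theorem cov_iUnion {ε : ℝ≥0} {ι : Type} [Countable ι] [Nonempty ι] {S : ι → Set (ℝ × ℝ)}
    (h : ∀ i, Cov ε (S i)) : Cov ε (⋃ i, S i) := by
  choose f h1 h2 using h
  obtain ⟨e, he⟩ := exists_surjective_nat (ι × ℕ)
  refine ⟨fun k => f (e k).1 (e k).2, fun k => h1 _ _, fun p hp => ?_⟩
  obtain ⟨i, hi⟩ := mem_iUnion.1 hp
  obtain ⟨k, hk⟩ := h2 i p hi
  obtain ⟨m, hm⟩ := he (i, k)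
  exact ⟨m, by simp only [hm]; exact hk⟩

theorem cov_graph {ε : ℝ≥0} {S : Set (ℝ × ℝ)}
    (h : ∀ p ∈ S, ∀ q ∈ S, |p.1 - q.1| ≤ ε * |p.2 - q.2|) : Cov ε S := by
  classical
  have hex : ∀ T : ℝ, ∃ a : ℝ, T ∈ Prod.snd '' S → (a, T) ∈ S := by
    intro T
    by_cases hT : T ∈ Prod.snd '' S
    · obtain ⟨p, hp, rfl⟩ := hT
      exact ⟨p.1, fun _ => hp⟩
    · exact ⟨0, fun h' => absurd h' hT⟩
  choose g hg using hex
  have hL : LipschitzOnWith ε g (Prod.snd '' S) := by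
    refine LipschitzOnWith.of_dist_le_mul fun x hx y hy => ?_
    rw [Real.dist_eq, Real.dist_eq]
    exact h _ (hg x hx) _ (hg y hy)
  obtain ⟨f, hf, hfg⟩ := hL.extend_real
  refine ⟨fun _ => f, fun _ => hf, fun p hp => ⟨0, ?_⟩⟩
  have h1 : p.2 ∈ Prod.snd '' S := ⟨p, hp, rfl⟩
  have h2 := h _ (hg _ h1) p hp
  simp only [sub_self, abs_zero, mul_zero] at h2
  show f p.2 = p.1
  rw [← hfg h1]
  exact sub_eq_zero.1 (abs_nonpos_iff.1 h2)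

theorem cov_of_cone {ε : ℝ≥0} {S : Set (ℝ × ℝ)}
    (h : ∀ p ∈ S, ∃ ρ : ℝ, 0 < ρ ∧ ∀ q ∈ S, p.2 ≤ q.2 → |q.1 - p.1| < ρ →
      |q.1 - p.1| ≤ ε * (q.2 - p.2)) : Cov ε S := by
  refine (cov_iUnion (ι := ℚ × ℚ) (S := fun i => {p | p ∈ S ∧ |p.1 - i.1| < i.2 ∧
    ∀ q ∈ S, p.2 ≤ q.2 → |q.1 - p.1| < 2 * i.2 → |q.1 - p.1| ≤ ε * (q.2 - p.2)})
    fun i => cov_graph ?_).mono fun p hp => ?_
  · rintro p ⟨hp, hp1, hp2⟩ q ⟨hq, hq1, hq2⟩
    have hd : |q.1 - p.1| < 2 * i.2 := by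
      rw [abs_lt] at hp1 hq1 ⊢
      constructor <;> linarith [hp1.1, hp1.2, hq1.1, hq1.2]
    rcases le_total p.2 q.2 with h1 | h1
    · rw [abs_sub_comm p.1, abs_sub_comm p.2, abs_of_nonneg (sub_nonneg.2 h1)]
      exact hp2 q hq h1 hd
    · rw [abs_of_nonneg (sub_nonneg.2 h1)]
      exact hq2 p hp h1 (by rwa [abs_sub_comm])
  · obtain ⟨ρ, hρ, h1⟩ := h p hp
    obtain ⟨r, hr0, hr⟩ := exists_rat_btwn (half_pos hρ)
    obtain ⟨z, hz1, hz2⟩ := exists_rat_btwn (show p.1 < p.1 + r by linarith)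
    refine mem_iUnion.2 ⟨(z, r), hp, ?_, fun q hq h2 h3 => h1 q hq h2 ?_⟩
    · rw [abs_lt]
      constructor <;> linarith
    · simp only at h3
      linarith

/-- Points that carry a fixed amount of a bounded mass in their backward windows do not
accumulate inside a forward cone. -/
theorem cone_of_count {I : ℝ → ℕ → ℝ → ℝ → ℝ} {B j k δ : ℝ} {S : Set (ℝ × ℝ)}
    (hj : 0 < j) (hk : 0 < k) (hδ : 0 < δ)
    (hI0 : ∀ s n a σ, 0 ≤ I s n a σ) (hIB : ∀ s n a σ, 0 ≤ s → I s n a σ ≤ B)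
    (hadd : ∀ s n a₀ a r' σ r, 0 ≤ s → 0 ≤ σ → r' + σ ≤ |a - a₀| → |a - a₀| + σ ≤ r →
      I s n a₀ r' + I s n a σ ≤ I s n a₀ r)
    (hS : ∀ q ∈ S, 0 < q.2 ∧ ∀ s, 0 ≤ s → s < q.2 → q.2 - δ < s →
      ∀ᶠ n in atTop, j ≤ I s n q.1 (k * (q.2 - s))) :
    ∀ p ∈ S, ∃ ρ : ℝ, 0 < ρ ∧ ∀ q ∈ S, p.2 ≤ q.2 → |q.1 - p.1| < ρ →
      |q.1 - p.1| ≤ 4 * k * (q.2 - p.2) := by
  intro p hp
  by_contra hcon
  have hacc : ∀ ρ : ℝ, 0 < ρ → ∃ q ∈ S, p.2 ≤ q.2 ∧ |q.1 - p.1| < ρ ∧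
      4 * k * (q.2 - p.2) < |q.1 - p.1| := by
    intro ρ hρ
    by_contra h1
    refine hcon ⟨ρ, hρ, fun q hq h2 h3 => ?_⟩
    by_contra h4
    exact h1 ⟨q, hq, h2, h3, not_le.1 h4⟩
  have hp0 := (hS p hp).1
  have key : ∀ m : ℕ, ∀ r : ℝ, 0 < r → ∃ η₀ : ℝ, 0 < η₀ ∧ η₀ ≤ p.2 ∧ ∀ η, 0 < η → η ≤ η₀ →
      ∀ᶠ n in atTop, m * j ≤ I (p.2 - η) n p.1 r := by
    intro m
    induction m with
    | zero =>
      intro r _
      exact ⟨p.2, hp0, le_rfl, fun η _ _ => Eventually.of_forall fun n => by simpa using hI0 _ _ _ _⟩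
    | succ m ih =>
      intro r hr
      obtain ⟨q, hq, h1, h2, h3⟩ := hacc (min (r / 2) (k * δ)) (lt_min (half_pos hr) (by positivity))
      obtain ⟨d, hd⟩ : ∃ d, d = |q.1 - p.1| := ⟨_, rfl⟩
      rw [← hd] at h2 h3
      have h4 : d < r / 2 := h2.trans_le (min_le_left _ _)
      have h5 : d < k * δ := h2.trans_le (min_le_right _ _)
      have h6 : 0 ≤ k * (q.2 - p.2) := mul_nonneg hk.le (sub_nonneg.2 h1)
      have hd0 : 0 < d := by linarith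
      obtain ⟨η₁, hη₁, hη₁p, hI⟩ := ih (d / 2) (half_pos hd0)
      refine ⟨min η₁ (d / (8 * k)), lt_min hη₁ (by positivity), (min_le_left _ _).trans hη₁p,
        fun η h7 h8 => ?_⟩
      have h9 : η ≤ η₁ := h8.trans (min_le_left _ _)
      have h10 : k * η ≤ d / 8 := by
        have := h8.trans (min_le_right _ _)
        rw [le_div_iff₀ (by positivity)] at this
        linarith
      have hs0 : 0 ≤ p.2 - η := by linarith
      have hσ : k * (q.2 - (p.2 - η)) ≤ 3 * d / 8 := by linarith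
      have hσ0 : 0 ≤ k * (q.2 - (p.2 - η)) := mul_nonneg hk.le (by linarith)
      have h11 : q.2 - δ < p.2 - η := by
        have : k * (q.2 - (p.2 - η)) < k * δ := by linarith
        have := lt_of_mul_lt_mul_left this hk.le
        linarith
      filter_upwards [hI η h7 h9, (hS q hq).2 (p.2 - η) hs0 (by linarith) h11] with n hn1 hn2
      have := hadd (p.2 - η) n p.1 q.1 (d / 2) (k * (q.2 - (p.2 - η))) r hs0 hσ0
        (by rw [← hd]; linarith) (by rw [← hd]; linarith)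
      push_cast
      linarith
  obtain ⟨m, hm⟩ := exists_nat_gt (B / j)
  obtain ⟨η₀, h1, h2, h3⟩ := key m 1 one_pos
  obtain ⟨n, hn⟩ := (h3 η₀ h1 le_rfl).exists
  have h4 := hIB (p.2 - η₀) n p.1 1 (by linarith)
  rw [div_lt_iff₀ hj] at hm
  linarith

end Pool.Agent.FS39
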