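import Pool.Agent.Lib.MP_5aed36_gt.H39Final
import Pool.Agent.FS.H39Drop.Cover

/-! The discontinuities of the perimeter in the plane of levels and times. -/

open MeasureTheory Set Filter Topology Metric
open scoped ENNReal NNReal RealInnerProductSpace symmDiff

namespace Pool.Agent.FS39

open Pool.Agent.MCF5 Pool.Agent.LevelSetFlow

variable {N : ℕ} {L : ℝ≥0} {R a₁ a₂ B C₀ c : ℝ} {v : ℝ → Sp N → ℝ}

/-- Small curvature mass in the backward windows of `(a, T)` along a sequence of times gives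
continuity of the perimeter of the level `a` at the time `T`. -/
theorem cont_of_good (hF : Flow L R a₁ a₂ B C₀ c v) (hc : 0 < c) (hB : 0 ≤ B) (hC : 0 ≤ C₀)
    {κ : ℝ → ℕ → Sp N → ℝ}
    (hκ : ∀ s, 0 ≤ s → (∀ n, Integrable (κ s n)) ∧ (∀ n, ∫ x, |κ s n x| ≤ B) ∧
      ∀ (a b : ℝ) (ψ : Sp N → ℝ), a₁ ≤ a → a < b → LipC ψ a → ∀ ε : ℝ, 0 < ε →
        ∀ᶠ n in atTop, tv (fun x => cl a b (v s x)) ≤
          tv ψ + (∫ x, |κ s n x| * |ψ x - cl a b (v s x)|) + ε)
    {a T k : ℝ} (ha : a₁ ≤ a) (hT0 : 0 < T) (hk : 0 < k)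
    (hgood : ∀ j : ℝ, 0 < j → ∃ᶠ s in 𝓝[<] T, ¬ Bad (κ s) (v s) a (k * (T - s)) j) :
    ContinuousAt (fun t => perim {x | a < v t x}) T := by
  obtain ⟨p, hp, hV, hP, hcomp⟩ := exists_level hF hc hκ ha
  have hT : 0 ≤ T := hT0.le
  have hne : ∀ t, 0 ≤ t → perim {x | a < v t x} ≠ ∞ := fun t ht =>
    ne_top_of_le_ne_top ENNReal.ofReal_ne_top (hP t ht)
  have hfin : ∀ s, volume {x | a < v s x} ≠ ∞ := fun s =>
    ne_top_of_le_ne_top measure_ball_lt_top.ne (measure_mono (fl_subset (hF.data s) ha))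
  have hsd : ∀ s t, volume ({x | a < v s x} ∆ {x | a < v t x}) ≠ ∞ :=
    fun s t => ne_top_of_le_ne_top (measure_union_ne_top (hfin s) (hfin t))
      (measure_mono symmDiff_subset_union)
  set D : ℝ → ℝ → ℝ := fun s t => volume.real ({x | a < v s x} ∆ {x | a < v t x}) with hD
  set P : ℝ → ℝ := fun t => (perim {x | a < v t x}).toReal with hPd
  have hCB : 0 ≤ C₀ * B := mul_nonneg hC hB
  have hD0 : ∀ s t, 0 ≤ D s t := fun s t => measureReal_nonneg
  have htri : ∀ s t T, D s T ≤ D s t + D t T := fun s t T =>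
    (measureReal_mono (symmDiff_triangle _ {x | a < v t x} _)
      (measure_union_ne_top (hsd s t) (hsd t T))).trans (measureReal_union_le _ _)
  have hanti : ∀ {s t : ℝ}, 0 ≤ s → s ≤ t → p t ≤ p s := fun hs hst =>
    fk_anti (D := D) hCB hD0 hV hs hst
  have hPp : ∀ t, 0 ≤ t → P t ≤ p t := fun t ht =>
    ENNReal.toReal_le_of_le_ofReal (hp t ht).1 (hP t ht)
  have hupper : ∀ ε, 0 < ε → ∀ᶠ t in 𝓝 T, P t < P T + ε := by
    intro ε hε
    have hne' : (p '' Ico 0 T).Nonempty := ⟨p 0, 0, ⟨le_rfl, hT0⟩, rfl⟩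
    have hbd : BddBelow (p '' Ico 0 T) := ⟨0, by
      rintro _ ⟨t, ht, rfl⟩
      exact (hp t ht.1).1⟩
    set m := sInf (p '' Ico 0 T) with hm
    have hr : ∀ t, 0 ≤ t → t < T → m ≤ p t := fun t h0 h1 => csInf_le hbd ⟨t, ⟨h0, h1⟩, rfl⟩
    have hr' : ∀ e, 0 < e → ∃ s, 0 ≤ s ∧ s < T ∧ p s < m + e := by
      intro e he
      obtain ⟨_, ⟨s, hs, rfl⟩, h⟩ := exists_lt_of_csInf_lt hne' (show m < m + e by linarith)
      exact ⟨s, hs.1, hs.2, h⟩
    have hlow : m ≤ P T := by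
      refine le_of_forall_pos_le_add fun j hj => ?_
      set A : ℝ := 2 * N * c + 2 / k with hA
      have hA0 : 0 ≤ A := by positivity
      refine fk_le_of_mul (c := A * (C₀ * B + 1)) (by positivity) fun μ hμ => ?_
      obtain ⟨s₀, hs₀, hs₀T, hps₀⟩ := hr' (μ ^ 2) (by positivity)
      obtain ⟨s, hs, hss⟩ := ((hgood j hj).and_eventually (Ioo_mem_nhdsLT hs₀T)).exists
      have hs0 : 0 ≤ s := hs₀.trans hss.1.le
      obtain ⟨q, hq, hqq⟩ : ∃ q : ℝ, 0 < q ∧ q ^ 2 = T - s :=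
        ⟨√(T - s), Real.sqrt_pos.2 (by linarith [hss.2]), Real.sq_sqrt (by linarith [hss.2])⟩
      rw [← hqq] at hs
      have h1 : p s ≤ P T + j + (2 * N * c / q + 2 * q / (k * q ^ 2)) * D s T :=
        hcomp s T (k * q ^ 2) q j hs0 hT (by positivity) hq hs
      have e1 : 2 * N * c / q + 2 * q / (k * q ^ 2) = A * q⁻¹ := by
        rw [hA]; field_simp
      have h3 := fk_left (D := D) hCB hp htri hV hs0 hss.2 (lam := μ * q⁻¹) (by positivity) hr
      have e2 : C₀ * B * (μ * q⁻¹) ^ 2 * (T - s) = C₀ * B * μ ^ 2 := by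
        rw [← hqq]; field_simp
      have h4 := hanti hs₀ hss.1.le
      have h5 : μ * (q⁻¹ * D s T) ≤ μ * ((C₀ * B + 1) * μ) := by
        rw [e2] at h3
        nlinarith
      have h6 := mul_le_mul_of_nonneg_left (le_of_mul_le_mul_left h5 hμ) hA0
      have h7 := hr s hs0 hss.2
      rw [e1] at h1
      nlinarith
    obtain ⟨s, hs0, hsT, hps⟩ := hr' ε hε
    filter_upwards [lt_mem_nhds hsT] with t ht
    linarith [hPp t (hs0.trans ht.le), hanti hs0 ht.le]
  have hDlim : Tendsto (fun t => D t T) (𝓝 T) (𝓝 0) := by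
    rw [Metric.tendsto_nhds]
    intro γ hγ
    obtain ⟨r, hr, h⟩ := fm_modulus hB hCB (half_pos hγ)
    filter_upwards [lt_mem_nhds hT0, ball_mem_nhds T hr] with t ht' htr
    have ht : 0 ≤ t := ht'.le
    rw [mem_ball, Real.dist_eq, abs_lt] at htr
    rw [Real.dist_eq, sub_zero, abs_of_nonneg (hD0 _ _)]
    rcases le_total t T with h1 | h1
    · have := h (D t T) (p t) (p T) (T - t) (by linarith) (by linarith) (hp T hT).1 (hp t ht).2
        fun lam hl => hV t T lam ht h1 hl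
      linarith
    · have := h (D T t) (p T) (p t) (t - T) (by linarith) (by linarith) (hp t ht).1 (hp T hT).2
        fun lam hl => hV T t lam hT h1 hl
      have e : D t T = D T t := by simp only [hD]; rw [symmDiff_comm]
      linarith
  have hlower : ∀ ε, 0 < ε → ∀ᶠ t in 𝓝 T, P T - ε < P t := by
    intro ε hε
    by_contra hcon
    rw [not_eventually] at hcon
    have hfr := hcon.and_eventually (lt_mem_nhds hT0)
    obtain ⟨t₀, ht₀, -⟩ := hfr.exists
    have hpos : 0 ≤ P T - ε := ENNReal.toReal_nonneg.trans (not_lt.1 ht₀)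
    have : (𝓝 T ⊓ 𝓟 {t | ¬ P T - ε < P t ∧ 0 < t}).NeBot := frequently_iff_neBot.1 hfr
    have h1 := perim_lsc (l := 𝓝 T ⊓ 𝓟 {t | ¬ P T - ε < P t ∧ 0 < t})
      (A := fun t => {x | a < v t x}) (fun t => fl_meas (hF.data t) a) (fl_meas (hF.data T) a)
      (fun t => hsd t T) (hDlim.mono_left inf_le_left) (p := ENNReal.ofReal (P T - ε)) (by
        refine eventually_inf_principal.2 (Eventually.of_forall fun t ht => ?_)
        rw [← ENNReal.ofReal_toReal (hne t ht.2.le)]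
        exact ENNReal.ofReal_le_ofReal (not_lt.1 ht.1))
    have h2 : P T ≤ P T - ε := ENNReal.toReal_le_of_le_ofReal hpos h1
    linarith
  have hcont : ContinuousAt P T := by
    rw [ContinuousAt, Metric.tendsto_nhds]
    intro ε hε
    filter_upwards [hupper ε hε, hlower ε hε] with t h1 h2
    rw [Real.dist_eq, abs_lt]
    constructor <;> linarith
  refine (ENNReal.continuous_ofReal.continuousAt.comp hcont).congr ?_
  filter_upwards [lt_mem_nhds hT0] with t ht
  exact ENNReal.ofReal_toReal (hne t ht.le)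

theorem win_meas {w : Sp N → ℝ} (hw : Measurable w) (a σ : ℝ) :
    MeasurableSet {x : Sp N | |w x - a| < σ} :=
  measurableSet_lt (hw.sub measurable_const).abs measurable_const

theorem win_add {w f : Sp N → ℝ} (hw : Measurable w) (hi : Integrable f) {a₀ a r' σ r : ℝ}
    (hσ : 0 ≤ σ) (h1 : r' + σ ≤ |a - a₀|) (h2 : |a - a₀| + σ ≤ r) :
    (∫ x in {x | |w x - a₀| < r'}, |f x|) + ∫ x in {x | |w x - a| < σ}, |f x| ≤
      ∫ x in {x | |w x - a₀| < r}, |f x| := by
  have hd : Disjoint {x | |w x - a₀| < r'} {x | |w x - a| < σ} := by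
    rw [disjoint_left]
    intro x h3 h4
    have h5 : |w x - a₀| < r' := h3
    have h6 : |w x - a| < σ := h4
    have h7 := abs_sub_le a (w x) a₀
    rw [abs_sub_comm a (w x)] at h7
    linarith
  rw [← setIntegral_union hd (win_meas hw a σ) hi.abs.integrableOn hi.abs.integrableOn]
  refine setIntegral_mono_set hi.abs.integrableOn (Eventually.of_forall fun x => abs_nonneg _)
    (LE.le.eventuallyLE ?_)
  rintro x (h3 | h3)
  · have h5 : |w x - a₀| < r' := h3
    show |w x - a₀| < r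
    linarith
  · have h6 : |w x - a| < σ := h3
    have h7 := abs_sub_le (w x) a a₀
    show |w x - a₀| < r
    linarith

theorem flow_cov (hF : Flow L R a₁ a₂ B C₀ c v) (hc : 0 < c) (hB : 0 ≤ B) (hC : 0 ≤ C₀)
    {ε : ℝ≥0} (hε : 0 < ε) :
    Cov ε {z | a₁ ≤ z.1 ∧ 0 < z.2 ∧ ¬ ContinuousAt (fun t => perim {x | z.1 < v t x}) z.2} := by
  choose! κ hκ using hF.calib
  have hmeas : ∀ s, Measurable (v s) := fun s => (hF.data s).1.continuous.measurable
  have hk : (0 : ℝ) < ε / 4 := by positivity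
  refine (cov_iUnion (ι := ℕ × ℕ) (S := fun i => {z | 0 < z.2 ∧ ∀ s, 0 ≤ s → s < z.2 →
    z.2 - 1 / ((i.2 : ℝ) + 1) < s →
      Bad (κ s) (v s) z.1 (ε / 4 * (z.2 - s)) (1 / ((i.1 : ℝ) + 1))}) fun i => ?_).mono ?_
  · refine cov_of_cone fun p hp => ?_
    have h := cone_of_count (I := fun s n a σ => ∫ x in {x | |v s x - a| < σ}, |κ s n x|) (B := B)
      (j := 1 / ((i.1 : ℝ) + 1)) (δ := 1 / ((i.2 : ℝ) + 1)) (by positivity) hk (by positivity)
      (fun s n a σ => integral_nonneg fun x => abs_nonneg _)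
      (fun s n a σ hs => (setIntegral_le_integral ((hκ s hs).1 n).abs
        (Eventually.of_forall fun x => abs_nonneg _)).trans ((hκ s hs).2.1 n))
      (fun s n a₀ a r' σ r hs h0 h1 h2 => win_add (hmeas s) ((hκ s hs).1 n) h0 h1 h2)
      (fun q hq => hq) p hp
    have e : 4 * ((ε : ℝ) / 4) = ε := by ring
    rwa [e] at h
  · rintro z ⟨h1, h2, h3⟩
    by_contra hcon
    refine h3 (cont_of_good hF hc hB hC hκ h1 h2 hk fun j hj => ?_)
    obtain ⟨l, hl⟩ := exists_nat_one_div_lt hj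
    by_contra hfr
    rw [not_frequently] at hfr
    obtain ⟨s₀, hs₀, hsub⟩ := (mem_nhdsLT_iff_exists_Ioo_subset' h2).1 hfr
    obtain ⟨d, hd⟩ := exists_nat_one_div_lt (show 0 < z.2 - s₀ from sub_pos.2 hs₀)
    refine hcon (mem_iUnion.2 ⟨(l, d), h2, fun s _ h4 h5 => ?_⟩)
    have h6 : Bad (κ s) (v s) z.1 (ε / 4 * (z.2 - s)) j :=
      not_not.1 (hsub ⟨by simp only at h5; linarith, h4⟩)
    exact h6.mono fun n hn => hl.le.trans hn

theorem window_cov (hN : 0 < N) {u : Zs N → ℝ} {R c a₁ a₂ : ℝ} (hu : IsWeakSolution u)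
    (hout : ∀ x t, 0 ≤ t → R ≤ ‖x‖ → u (x, t) = c) (hg : ContDiff ℝ 2 fun x => u (x, 0))
    (hc : c < a₁) (ha : a₁ < a₂)
    (hreg : ∀ x, a₁ ≤ u (x, 0) → u (x, 0) ≤ a₂ → fderiv ℝ (fun y => u (y, 0)) x ≠ 0)
    {ε : ℝ≥0} (hε : 0 < ε) :
    Cov ε {z | a₁ < z.1 ∧ z.1 < a₂ ∧ 0 ≤ z.2 ∧
      ¬ ContinuousWithinAt (fun t => perimeter {x | z.1 < u (x, t)}) (Ici 0) z.2} := by
  obtain ⟨M, hM⟩ := nice_extT hu hout
  obtain ⟨L, B, C₀, c', hB, hC, hc', hF⟩ := exists_flow (g := fun x => u (x, 0)) hN hM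
    (sub_extT hu.sub) (sub_neg_extT hu.super) (fun z hz => extT_of_nonpos u z.1 hz) hg hc ha hreg
  refine (flow_cov hF hc' hB hC hε).mono ?_
  rintro ⟨a, T⟩ ⟨h1, h2, h3, h4⟩
  simp only at h1 h2 h3 h4
  have e2 : ∀ t, 0 ≤ t → {x | a < cl a₁ a₂ (extT u (x, t))} = {x | a < u (x, t)} := by
    intro t ht
    ext x
    simp only [mem_ofPred_eq, lt_cl_iff h1 h2, extT_of_nonneg u x ht]
  refine ⟨h1.le, ?_, fun h5 => h4 ?_⟩
  · rcases h3.eq_or_lt with h0 | h0
    · exfalso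
      subst h0
      obtain ⟨C, hCw⟩ := window_one hN hu hout hg hc h1 h2 hreg
      obtain ⟨-, k2⟩ := hCw 0 1 le_rfl one_pos
      have hz : liminf (fun s : ℝ => ∫⁻ x in {x | 0 ≤ s ∧ a < u (x, s) ∧ u (x, s) < a + 1 * (0 - s)},
          ENNReal.ofReal (1 / √(u (x, s) - a))) (𝓝[<] 0) = 0 := by
        refine Tendsto.liminf_eq (tendsto_const_nhds.congr' ?_)
        filter_upwards [self_mem_nhdsWithin] with s hs
        have : {x : Sp N | 0 ≤ s ∧ a < u (x, s) ∧ u (x, s) < a + 1 * (0 - s)} = ∅ :=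
          eq_empty_of_forall_notMem fun x hx => absurd hx.1 (not_le.2 hs)
        rw [this]
        simp
      rw [hz, mul_zero, add_zero] at k2
      have hp : pure (0 : ℝ) ≤ 𝓝[Ici 0] 0 := pure_le_nhdsWithin self_mem_Ici
      have k3 : perimeter {x | a < u (x, 0)} ≤
          limsup (fun t => perimeter {x | a < u (x, t)}) (𝓝[Ici 0] 0) :=
        le_limsup_of_frequently_le (Frequently.filter_mono
          (Eventually.frequently (eventually_pure.2 le_rfl)) hp)
      have k4 : liminf (fun t => perimeter {x | a < u (x, t)}) (𝓝[Ici 0] 0) ≤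
          perimeter {x | a < u (x, 0)} :=
        liminf_le_of_frequently_le (Frequently.filter_mono
          (Eventually.frequently (eventually_pure.2 le_rfl)) hp)
      exact h4 (tendsto_of_le_liminf_of_limsup_le (k3.trans k2) (k2.trans k4))
    · exact h0
  · refine h5.continuousWithinAt.congr (fun t ht => ?_) ?_
    · simp only [perimeter_eq, e2 t ht]
    · simp only [perimeter_eq, e2 T h3]

end Pool.Agent.FS39
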